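import Mathlib

/-!
# A uniformly factor-balanced word with quadratic factor complexity

The word has letters `(N mod 25, U 0 N)` where `U c N` is the letter of level `c` above position `N`.
A level `c` letter is read off a row of `25` letters; the row reveals the base `25` digits number
`2c+1` and `2c+2` of `N` and the level `c+1` letter, and all letters of the row are translated modulo
`5` by the last base `5` digit of digit number `2c+2`.
-/

set_option autoImplicit false

namespace Pool.Agent.Results.MP_9e6215_co.QuadraticBalanced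

/-! ### Definitions of the problem -/

variable {α : Type}

/-- The block `x_i x_{i+1} ⋯ x_{i+n-1}`. -/
def block (x : ℕ → α) (i n : ℕ) : List α := (List.range n).map (fun j => x (i + j))

/-- The finite word `w` is a factor of the infinite word `x`. -/
def IsFactor (x : ℕ → α) (w : List α) : Prop := ∃ i n, w = block x i n

/-- `|u|_w`: the number of positions `k` of `u` at which `w` occurs. -/
def occ [DecidableEq α] (u w : List α) : ℕ :=
  ((Finset.range (u.length + 1)).filter (fun k => w <+: u.drop k)).card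

/-- One constant `C` bounds `||u|_w - |v|_w|` for all factors `w` and all factors `u`, `v` of equal
length. -/
def UniformlyFactorBalanced [DecidableEq α] (x : ℕ → α) : Prop :=
  ∃ C : ℕ, 1 ≤ C ∧ ∀ w, IsFactor x w → ∀ u v, IsFactor x u → IsFactor x v → u.length = v.length →
    |(occ u w : ℤ) - (occ v w : ℤ)| ≤ C

/-- The factor complexity. -/
noncomputable def complexity (x : ℕ → α) (n : ℕ) : ℕ :=
  Set.ncard {w : List α | IsFactor x w ∧ w.length = n}

/-! ### The word -/

/-- The letter number `d` of a row. -/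
def row (d h k v : ℕ) : ℕ :=
  ((if d < 5 then 0 else if d < 10 then h / 5 else if d < 15 then h % 5 else
    if d < 20 then k / 5 else v) + k % 5) % 5

/-- Base `25` digits. -/
def dig (i N : ℕ) : ℕ := N / 25 ^ i % 25

/-- The level `c` letter above position `N`. -/
def U (c N : ℕ) : ℕ :=
  if h : N < 25 ^ c then 0 else row (dig c N) (dig (2 * c + 1) N) (dig (2 * c + 2) N) (U (c + 1) N)
termination_by N + 1 - c
decreasing_by
  have : c < 25 ^ c := Nat.lt_pow_self (by norm_num)
  omega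

theorem dig_lt (i N : ℕ) : dig i N < 25 := Nat.mod_lt _ (by norm_num)

theorem dig_zero_of_lt {i N : ℕ} (h : N < 25 ^ i) : dig i N = 0 := by
  unfold dig
  rw [Nat.div_eq_of_lt h]

theorem U_eq (c N : ℕ) :
    U c N = row (dig c N) (dig (2 * c + 1) N) (dig (2 * c + 2) N) (U (c + 1) N) := by
  by_cases h : N < 25 ^ c
  · rw [U, dif_pos h, dig_zero_of_lt h]
    have h1 : N < 25 ^ (2 * c + 1) := lt_of_lt_of_le h (Nat.pow_le_pow_right (by norm_num) (by omega))
    have h2 : N < 25 ^ (2 * c + 2) := lt_of_lt_of_le h (Nat.pow_le_pow_right (by norm_num) (by omega))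
    rw [dig_zero_of_lt h1, dig_zero_of_lt h2]
    rfl
  · rw [U, dif_neg h]

theorem U_zero {c N : ℕ} (h : N < 25 ^ c) : U c N = 0 := by
  rw [U, dif_pos h]

theorem row_lt (d h k v : ℕ) : row d h k v < 5 := Nat.mod_lt _ (by norm_num)

theorem U_lt (c N : ℕ) : U c N < 5 := by
  rw [U_eq]; exact row_lt _ _ _ _

/-- The word. -/
def x (N : ℕ) : Fin 25 × Fin 5 := (⟨N % 25, Nat.mod_lt _ (by norm_num)⟩, ⟨U 0 N, U_lt 0 N⟩)

theorem x_eq_iff (N N' : ℕ) : x N = x N' ↔ N % 25 = N' % 25 ∧ U 0 N = U 0 N' := by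
  simp [x]

/-! ### Rows -/

theorem row_congr {d d' : ℕ} (h k v : ℕ) (hd : d / 5 = d' / 5) : row d h k v = row d' h k v := by
  unfold row
  have e1 : d < 5 ↔ d' < 5 := by omega
  have e2 : d < 10 ↔ d' < 10 := by omega
  have e3 : d < 15 ↔ d' < 15 := by omega
  have e4 : d < 20 ↔ d' < 20 := by omega
  simp only [e1, e2, e3, e4]

theorem row_small {d : ℕ} (h k v v' : ℕ) (hd : d < 20) : row d h k v = row d h k v' := by
  unfold row
  split_ifs <;> rfl

theorem row_shift (d h p q v : ℕ) (hq : q < 5) :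
    row d h (5 * p + q) v = (row d h (5 * p) v + q) % 5 := by
  unfold row
  have e1 : (5 * p + q) / 5 = p := by omega
  have e2 : (5 * p + q) % 5 = q := by omega
  have e3 : (5 * p) / 5 = p := by omega
  have e4 : (5 * p) % 5 = 0 := by omega
  rw [e1, e2, e3, e4]
  omega

theorem row_decode {h k v h' k' v' : ℕ} (hh : h < 25) (hk : k < 25) (hv : v < 5) (hh' : h' < 25)
    (hk' : k' < 25) (hv' : v' < 5) (H : ∀ d < 25, row d h k v = row d h' k' v') :
    h = h' ∧ k = k' ∧ v = v' := by
  have h0 := H 0 (by norm_num)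
  have h1 := H 5 (by norm_num)
  have h2 := H 10 (by norm_num)
  have h3 := H 15 (by norm_num)
  have h4 := H 20 (by norm_num)
  simp only [row] at h0 h1 h2 h3 h4
  norm_num at h0 h1 h2 h3 h4
  omega

/-! ### Digits -/

theorem dig_low {i J N N' : ℕ} (hi : i < J) (h : N % 25 ^ J = N' % 25 ^ J) : dig i N = dig i N' := by
  have key : ∀ M : ℕ, dig i M = (M % 25 ^ J) / 25 ^ i % 25 := by
    intro M
    unfold dig
    obtain ⟨m, rfl⟩ := Nat.exists_eq_add_of_lt hi
    rw [show i + m + 1 = i + (m + 1) by ring, pow_add, Nat.mod_mul_right_div_self, pow_succ]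
    rw [Nat.mod_mul_left_mod]
  rw [key N, key N', h]

theorem dig_high {i J N N' : ℕ} (hi : J ≤ i) (h : N / 25 ^ J = N' / 25 ^ J) :
    dig i N = dig i N' := by
  unfold dig
  obtain ⟨m, rfl⟩ := Nat.exists_eq_add_of_le hi
  rw [pow_add, ← Nat.div_div_eq_div_mul, ← Nat.div_div_eq_div_mul, h]

theorem mod_mono {i J N N' : ℕ} (hi : i ≤ J) (h : N % 25 ^ J = N' % 25 ^ J) :
    N % 25 ^ i = N' % 25 ^ i := by
  have hd : 25 ^ i ∣ 25 ^ J := pow_dvd_pow _ hi
  exact Nat.ModEq.of_dvd hd h

theorem mod_succ {J N N' : ℕ} (h : N % 25 ^ J = N' % 25 ^ J) (hd : dig J N = dig J N') :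
    N % 25 ^ (J + 1) = N' % 25 ^ (J + 1) := by
  unfold dig at hd
  rw [pow_succ, Nat.mod_mul, Nat.mod_mul, h, hd]

/-- `U c N` depends on `N / 25 ^ c` only. -/
theorem U_div_aux (n : ℕ) : ∀ c N N' : ℕ, N < 25 ^ (c + n) → N' < 25 ^ (c + n) →
    N / 25 ^ c = N' / 25 ^ c → U c N = U c N' := by
  induction n with
  | zero =>
    intro c N N' h h' _
    rw [U_zero (by simpa using h), U_zero (by simpa using h')]
  | succ n ih =>
    intro c N N' h h' hd
    rw [U_eq c N, U_eq c N', dig_high le_rfl hd, dig_high (by omega : c ≤ 2 * c + 1) hd,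
      dig_high (by omega : c ≤ 2 * c + 2) hd]
    rw [ih (c + 1) N N' (by rwa [show c + 1 + n = c + (n + 1) by ring])
      (by rwa [show c + 1 + n = c + (n + 1) by ring])]
    rw [pow_succ, ← Nat.div_div_eq_div_mul, ← Nat.div_div_eq_div_mul, hd]

theorem U_div {c N N' : ℕ} (h : N / 25 ^ c = N' / 25 ^ c) : U c N = U c N' := by
  have h1 : N + N' < 25 ^ (N + N') := Nat.lt_pow_self (by norm_num)
  have h2 : 25 ^ (N + N') ≤ 25 ^ (c + (N + N')) := Nat.pow_le_pow_right (by norm_num) (by omega)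
  exact U_div_aux (N + N') c N N' (by omega) (by omega) h

/-- Changing the last base `5` digit of the base `25` digit number `I ≤ 2c` does not change
`U c`. -/
theorem U_inv_aux (I n : ℕ) : ∀ c N N' : ℕ, N < 25 ^ (c + n) → N' < 25 ^ (c + n) → I ≤ 2 * c →
    N % 25 ^ I = N' % 25 ^ I → N / 25 ^ (I + 1) = N' / 25 ^ (I + 1) → dig I N / 5 = dig I N' / 5 →
    U c N = U c N' := by
  induction n with
  | zero =>
    intro c N N' h h' _ _ _ _
    rw [U_zero (by simpa using h), U_zero (by simpa using h')]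
  | succ n ih =>
    intro c N N' h h' hI h1 h2 h3
    rw [U_eq c N, U_eq c N', dig_high (by omega : I + 1 ≤ 2 * c + 1) h2,
      dig_high (by omega : I + 1 ≤ 2 * c + 2) h2]
    rw [ih (c + 1) N N' (by rwa [show c + 1 + n = c + (n + 1) by ring])
      (by rwa [show c + 1 + n = c + (n + 1) by ring]) (by omega) h1 h2 h3]
    apply row_congr
    rcases lt_trichotomy c I with hc | hc | hc
    · rw [dig_low hc h1]
    · rw [hc, h3]
    · rw [dig_high (by omega : I + 1 ≤ c) h2]

theorem U_inv {I c N N' : ℕ} (hI : I ≤ 2 * c) (h1 : N % 25 ^ I = N' % 25 ^ I)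
    (h2 : N / 25 ^ (I + 1) = N' / 25 ^ (I + 1)) (h3 : dig I N / 5 = dig I N' / 5) :
    U c N = U c N' := by
  have h1' : N + N' < 25 ^ (N + N') := Nat.lt_pow_self (by norm_num)
  have h2' : 25 ^ (N + N') ≤ 25 ^ (c + (N + N')) := Nat.pow_le_pow_right (by norm_num) (by omega)
  exact U_inv_aux I (N + N') c N N' (by omega) (by omega) hI h1 h2 h3


/-- Changing the last base `5` digit of digit number `2c+2` translates `U c`. -/
theorem U_trans (c A p q X : ℕ) (hA : A < 25 ^ (2 * c + 2)) (hp : p < 5) (hq : q < 5) :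
    U c (A + 25 ^ (2 * c + 2) * (5 * p + q + 25 * X)) =
      (U c (A + 25 ^ (2 * c + 2) * (5 * p + 0 + 25 * X)) + q) % 5 := by
  have hpos : 0 < 25 ^ (2 * c + 2) := by positivity
  have hmod : ∀ m, (A + 25 ^ (2 * c + 2) * m) % 25 ^ (2 * c + 2) = A := by
    intro m
    rw [Nat.add_mul_mod_self_left, Nat.mod_eq_of_lt hA]
  have hdiv : ∀ m, (A + 25 ^ (2 * c + 2) * m) / 25 ^ (2 * c + 2) = m := by
    intro m
    rw [Nat.add_mul_div_left _ _ hpos, Nat.div_eq_of_lt hA, zero_add]
  have hdig : ∀ q', q' < 5 →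
      dig (2 * c + 2) (A + 25 ^ (2 * c + 2) * (5 * p + q' + 25 * X)) = 5 * p + q' := by
    intro q' hq'
    unfold dig
    rw [hdiv]
    omega
  have hdiv2 : ∀ q', q' < 5 →
      (A + 25 ^ (2 * c + 2) * (5 * p + q' + 25 * X)) / 25 ^ (2 * c + 2 + 1) = X := by
    intro q' hq'
    rw [pow_succ 25 (2 * c + 2), ← Nat.div_div_eq_div_mul, hdiv]
    omega
  rw [U_eq c (A + 25 ^ (2 * c + 2) * (5 * p + q + 25 * X)),
    U_eq c (A + 25 ^ (2 * c + 2) * (5 * p + 0 + 25 * X))]
  rw [hdig q hq, hdig 0 (by norm_num), row_shift _ _ _ _ _ hq]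
  rw [dig_low (i := c) (J := 2 * c + 2)
      (N := A + 25 ^ (2 * c + 2) * (5 * p + q + 25 * X))
      (N' := A + 25 ^ (2 * c + 2) * (5 * p + 0 + 25 * X)) (by omega) (by rw [hmod, hmod]),
    dig_low (i := 2 * c + 1) (J := 2 * c + 2)
      (N := A + 25 ^ (2 * c + 2) * (5 * p + q + 25 * X))
      (N' := A + 25 ^ (2 * c + 2) * (5 * p + 0 + 25 * X)) (by omega) (by rw [hmod, hmod])]
  rw [U_inv (I := 2 * c + 2) (c := c + 1)
      (N := A + 25 ^ (2 * c + 2) * (5 * p + q + 25 * X))
      (N' := A + 25 ^ (2 * c + 2) * (5 * p + 0 + 25 * X)) (by omega) (by rw [hmod, hmod])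
      (by rw [hdiv2 q hq, hdiv2 0 (by norm_num)])
      (by rw [hdig q hq, hdig 0 (by norm_num)]; omega)]
  rfl

/-! ### The word is determined by few data -/

theorem U_det (b : ℕ) {N N' : ℕ} (h : N % 25 ^ (2 * b + 1) = N' % 25 ^ (2 * b + 1))
    (hU : U b N = U b N') : ∀ j c, c + j = b → U c N = U c N' := by
  intro j
  induction j with
  | zero => intro c hc; rw [show c = b by omega]; exact hU
  | succ j ih =>
    intro c hc
    rw [U_eq c N, U_eq c N', ih (c + 1) (by omega), dig_low (by omega : c < 2 * b + 1) h,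
      dig_low (by omega : 2 * c + 1 < 2 * b + 1) h, dig_low (by omega : 2 * c + 2 < 2 * b + 1) h]

theorem x_det (b : ℕ) {N N' : ℕ} (h : N % 25 ^ (2 * b + 1) = N' % 25 ^ (2 * b + 1))
    (hU : U b N = U b N') : x N = x N' := by
  rw [x_eq_iff]
  refine ⟨?_, U_det b h hU b 0 (by omega)⟩
  have := mod_mono (i := 1) (by omega : 1 ≤ 2 * b + 1) h
  simpa using this

/-! ### Recognisability -/

theorem row_form (b t d : ℕ) (hd : d < 25) :
    U b (25 ^ (b + 1) * t + d * 25 ^ b) =
      row d (dig (2 * b + 1) (25 ^ (b + 1) * t)) (dig (2 * b + 2) (25 ^ (b + 1) * t))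
        (U (b + 1) (25 ^ (b + 1) * t)) := by
  have hpos : 0 < 25 ^ b := by positivity
  have hpos' : 0 < 25 ^ (b + 1) := by positivity
  have hlt : d * 25 ^ b < 25 ^ (b + 1) := by
    rw [pow_succ, mul_comm]
    exact Nat.mul_lt_mul_of_pos_left hd hpos
  have e1 : (25 ^ (b + 1) * t + d * 25 ^ b) / 25 ^ (b + 1) = (25 ^ (b + 1) * t) / 25 ^ (b + 1) := by
    rw [Nat.mul_add_div hpos', Nat.div_eq_of_lt hlt, Nat.mul_div_cancel_left _ hpos', add_zero]
  have e2 : dig b (25 ^ (b + 1) * t + d * 25 ^ b) = d := by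
    unfold dig
    rw [show 25 ^ (b + 1) * t + d * 25 ^ b = 25 ^ b * (25 * t + d) by ring,
      Nat.mul_div_cancel_left _ hpos]
    omega
  rw [U_eq, e2, dig_high (by omega : b + 1 ≤ 2 * b + 1) e1,
    dig_high (by omega : b + 1 ≤ 2 * b + 2) e1, U_div e1]

/-- If all level `b` letters of two level `b+1` blocks agree then the revealed data agree. -/
theorem decode (b t t' : ℕ)
    (H : ∀ d < 25, U b (25 ^ (b + 1) * t + d * 25 ^ b) = U b (25 ^ (b + 1) * t' + d * 25 ^ b)) :
    dig (2 * b + 1) (25 ^ (b + 1) * t) = dig (2 * b + 1) (25 ^ (b + 1) * t') ∧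
    dig (2 * b + 2) (25 ^ (b + 1) * t) = dig (2 * b + 2) (25 ^ (b + 1) * t') ∧
    U (b + 1) (25 ^ (b + 1) * t) = U (b + 1) (25 ^ (b + 1) * t') := by
  refine row_decode (dig_lt _ _) (dig_lt _ _) (U_lt _ _) (dig_lt _ _) (dig_lt _ _) (U_lt _ _) ?_
  intro d hd
  rw [← row_form b t d hd, ← row_form b t' d hd, H d hd]

theorem recog (b : ℕ) : ∀ N N' L : ℕ, 1 ≤ L → (b = 0 ∨ 2 * 25 ^ b ≤ L) →
    (∀ i < L, x (N + i) = x (N' + i)) →
    N % 25 ^ (2 * b + 1) = N' % 25 ^ (2 * b + 1) ∧
    ∀ i, N ≤ 25 ^ b * ((N + i) / 25 ^ b) → 25 ^ b * ((N + i) / 25 ^ b) + 25 ^ b ≤ N + L →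
      U b (N + i) = U b (N' + i) := by
  induction b with
  | zero =>
    intro N N' L hL _ H
    refine ⟨?_, ?_⟩
    · have := (x_eq_iff _ _).1 (H 0 (by omega))
      simpa using this.1
    · intro i _ h2
      simp only [pow_zero, one_mul, Nat.div_one] at h2
      exact ((x_eq_iff _ _).1 (H i (by omega))).2
  | succ b ih =>
    intro N N' L hL hb H
    have hb' : 2 * 25 ^ (b + 1) ≤ L := by
      rcases hb with hb | hb
      · omega
      · exact hb
    have hpos : 0 < 25 ^ b := by positivity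
    have hpow : 25 ^ (b + 1) = 25 * 25 ^ b := by ring
    obtain ⟨hmod, hU⟩ := ih N N' L hL (Or.inr (by omega)) H
    have hmod1 : N % 25 ^ (b + 1) = N' % 25 ^ (b + 1) := mod_mono (by omega) hmod
    -- a covered block
    have key : ∀ i0, 25 ^ (b + 1) ∣ N + i0 → i0 + 25 ^ (b + 1) ≤ L →
        25 ^ (b + 1) ∣ N' + i0 ∧
        dig (2 * b + 1) (N + i0) = dig (2 * b + 1) (N' + i0) ∧
        dig (2 * b + 2) (N + i0) = dig (2 * b + 2) (N' + i0) ∧
        U (b + 1) (N + i0) = U (b + 1) (N' + i0) := by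
      intro i0 hdvd hle
      have hdvd' : 25 ^ (b + 1) ∣ N' + i0 := by
        have : N + i0 ≡ N' + i0 [MOD 25 ^ (b + 1)] := Nat.ModEq.add_right _ hmod1
        exact (Nat.ModEq.dvd_iff this dvd_rfl).1 hdvd
      obtain ⟨t, ht⟩ := hdvd
      obtain ⟨t', ht'⟩ := hdvd'
      refine ⟨⟨t', ht'⟩, ?_⟩
      rw [ht, ht']
      apply decode
      intro d hd
      rw [← ht, ← ht']
      have hd1 : d * 25 ^ b + 25 ^ b ≤ 25 ^ (b + 1) := by
        rw [hpow]; nlinarith
      have e : (N + (i0 + d * 25 ^ b)) / 25 ^ b = 25 * t + d := by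
        rw [← add_assoc, ht, hpow, show 25 * 25 ^ b * t + d * 25 ^ b = 25 ^ b * (25 * t + d) by ring,
          Nat.mul_div_cancel_left _ hpos]
      have e2 : 25 ^ b * (25 * t + d) = N + i0 + d * 25 ^ b := by
        rw [ht, hpow]; ring
      have := hU (i0 + d * 25 ^ b) (by rw [e, e2]; omega) (by rw [e, e2]; omega)
      rw [← add_assoc, ← add_assoc] at this
      exact this
    refine ⟨?_, ?_⟩
    · -- the residue
      set i0 := 25 ^ (b + 1) * ((N + 25 ^ (b + 1) - 1) / 25 ^ (b + 1)) - N with hi0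
      have hpos' : 0 < 25 ^ (b + 1) := by positivity
      have h1 : 25 ^ (b + 1) * ((N + 25 ^ (b + 1) - 1) / 25 ^ (b + 1)) ≤ N + 25 ^ (b + 1) - 1 :=
        Nat.mul_div_le _ _
      have h2 : N + 25 ^ (b + 1) - 1 <
          25 ^ (b + 1) * ((N + 25 ^ (b + 1) - 1) / 25 ^ (b + 1)) + 25 ^ (b + 1) := by
        have := Nat.lt_div_mul_add (a := N + 25 ^ (b + 1) - 1) hpos'
        rw [mul_comm] at this
        exact this
      have h3 : N + i0 = 25 ^ (b + 1) * ((N + 25 ^ (b + 1) - 1) / 25 ^ (b + 1)) := by omega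
      obtain ⟨_, k1, k2, _⟩ := key i0 (by rw [h3]; exact dvd_mul_right _ _) (by omega)
      have hm : (N + i0) % 25 ^ (2 * b + 1) = (N' + i0) % 25 ^ (2 * b + 1) :=
        Nat.ModEq.add_right _ hmod
      have hm3 := mod_succ (mod_succ hm k1) k2
      have : N + i0 ≡ N' + i0 [MOD 25 ^ (2 * (b + 1) + 1)] := hm3
      exact Nat.ModEq.add_right_cancel' _ this
    · intro i hc1 hc2
      have hpos' : 0 < 25 ^ (b + 1) := by positivity
      set s := 25 ^ (b + 1) * ((N + i) / 25 ^ (b + 1)) with hs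
      have hsle : s ≤ N + i := Nat.mul_div_le _ _
      have hslt : N + i < s + 25 ^ (b + 1) := by
        have := Nat.lt_div_mul_add (a := N + i) hpos'
        rw [mul_comm] at this
        exact this
      obtain ⟨i0, hi0⟩ := Nat.exists_eq_add_of_le hc1
      obtain ⟨k0, _, _, k3⟩ := key i0 (by rw [← hi0, hs]; exact dvd_mul_right _ _) (by omega)
      have e1 : (N + i) / 25 ^ (b + 1) = (N + i0) / 25 ^ (b + 1) := by
        rw [← hi0, hs, Nat.mul_div_cancel_left _ hpos']
      have e2 : (N' + i) / 25 ^ (b + 1) = (N' + i0) / 25 ^ (b + 1) := by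
        obtain ⟨t', ht'⟩ := k0
        rw [show N' + i = N' + i0 + (i - i0) by omega, ht', Nat.mul_add_div hpos',
          Nat.mul_div_cancel_left _ hpos', Nat.div_eq_of_lt (by omega), add_zero]
      rw [U_div e1, U_div e2, k3]

/-! ### Balance -/

/-- The letters at positions `N, …, N + 2 * 25 ^ (b+1) - 1` are determined by `N` modulo
`25 ^ (2b+5)` and by the level `b+2` letter above `N`. -/
theorem event_det (b : ℕ) {N N' : ℕ} (h : N % 25 ^ (2 * b + 5) = N' % 25 ^ (2 * b + 5))
    (hU : U (b + 2) N = U (b + 2) N') {i : ℕ} (hi : i < 2 * 25 ^ (b + 1)) :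
    x (N + i) = x (N' + i) := by
  have hm : (N + i) % 25 ^ (2 * b + 5) = (N' + i) % 25 ^ (2 * b + 5) := Nat.ModEq.add_right _ h
  have hpos : 0 < 25 ^ (b + 1) := by positivity
  have hpos2 : 0 < 25 ^ (b + 2) := by positivity
  have hpow : 25 ^ (b + 2) = 25 ^ (b + 1) * 25 := by ring
  have hr : N % 25 ^ (b + 2) = N' % 25 ^ (b + 2) := mod_mono (by omega) h
  apply x_det (b + 1) (mod_mono (by omega) hm)
  rw [U_eq (b + 1) (N + i), U_eq (b + 1) (N' + i), dig_low (by omega : b + 1 < 2 * b + 5) hm,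
    dig_low (by omega : 2 * (b + 1) + 1 < 2 * b + 5) hm,
    dig_low (by omega : 2 * (b + 1) + 2 < 2 * b + 5) hm]
  by_cases hc : N % 25 ^ (b + 2) + i < 25 ^ (b + 2)
  · have hc' : N' % 25 ^ (b + 2) + i < 25 ^ (b + 2) := by rw [← hr]; exact hc
    have e1 : (N + i) / 25 ^ (b + 2) = N / 25 ^ (b + 2) := by
      conv_lhs => rw [← Nat.div_add_mod N (25 ^ (b + 2)), add_assoc]
      rw [Nat.mul_add_div hpos2, Nat.div_eq_of_lt hc, add_zero]
    have e2 : (N' + i) / 25 ^ (b + 2) = N' / 25 ^ (b + 2) := by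
      conv_lhs => rw [← Nat.div_add_mod N' (25 ^ (b + 2)), add_assoc]
      rw [Nat.mul_add_div hpos2, Nat.div_eq_of_lt hc', add_zero]
    rw [show b + 1 + 1 = b + 2 by ring, U_div e1, U_div e2, hU]
  · apply row_small
    have hlt : N' % 25 ^ (b + 2) < 25 ^ (b + 2) := Nat.mod_lt _ hpos2
    rw [hr] at hc
    have e3 : (N' + i) % 25 ^ (b + 2) < 2 * 25 ^ (b + 1) := by
      have e4 : (N' + i) % 25 ^ (b + 2) = N' % 25 ^ (b + 2) + i - 25 ^ (b + 2) := by
        conv_lhs => rw [← Nat.div_add_mod N' (25 ^ (b + 2)), add_assoc, Nat.mul_add_mod]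
        rw [Nat.mod_eq_sub_mod (by omega), Nat.mod_eq_of_lt (by rw [hpow] at *; omega)]
      omega
    rw [hpow, Nat.mod_mul] at e3
    have e5 : 25 ^ (b + 1) * dig (b + 1) (N' + i) < 25 ^ (b + 1) * 2 := by
      unfold dig
      omega
    have := Nat.lt_of_mul_lt_mul_left e5
    omega

/-- `N` is an occurrence of the block of length `n` at `N0`. -/
def P (N0 n N : ℕ) : Prop := ∀ j < n, x (N + j) = x (N0 + j)

instance (N0 n : ℕ) : DecidablePred (P N0 n) := fun N => by unfold P; infer_instance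

/-- The number of occurrences in an aligned block. -/
def K (N0 n B X : ℕ) : ℕ := ((Finset.range B).filter (fun r => P N0 n (B * X + r))).card

theorem K_le (N0 n b X X' : ℕ) (hn : n ≤ 2 * 25 ^ (b + 1)) :
    K N0 n (25 ^ (2 * b + 7)) X ≤ K N0 n (25 ^ (2 * b + 7)) X' := by
  set D := 25 ^ (2 * b + 6) with hD
  have hDpos : 0 < D := by positivity
  have hB : 25 ^ (2 * b + 7) = 25 * D := by rw [hD]; ring
  have hD' : 25 ^ (2 * (b + 2) + 2) = D := by rw [hD]; congr 1
  let g : ℕ → ℕ → ℕ → ℕ := fun Y A p => U (b + 2) (A + D * (5 * p + 0 + 25 * Y))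
  let φ : ℕ → ℕ := fun r => r % D + D * (5 * (r / D / 5) +
    (r / D % 5 + g X (r % D) (r / D / 5) + 4 * g X' (r % D) (r / D / 5)) % 5)
  have hform : ∀ Y r, r < 25 * D → U (b + 2) (25 * D * Y + r) =
      (g Y (r % D) (r / D / 5) + r / D % 5) % 5 := by
    intro Y r hr
    have hm : r / D < 25 := by
      rw [Nat.div_lt_iff_lt_mul hDpos]; exact hr
    have := U_trans (b + 2) (r % D) (r / D / 5) (r / D % 5) Y
      (by rw [hD']; exact Nat.mod_lt _ hDpos) (by omega) (Nat.mod_lt _ (by norm_num))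
    rw [hD'] at this
    rw [← this]
    congr 1
    have e := Nat.div_add_mod (r / D) 5
    have e' := Nat.div_add_mod r D
    calc 25 * D * Y + r = r % D + D * (r / D + 25 * Y) := by
          conv_lhs => rw [← e']
          ring
      _ = _ := by rw [e]
  have hφD : ∀ r, φ r / D = 5 * (r / D / 5) +
      (r / D % 5 + g X (r % D) (r / D / 5) + 4 * g X' (r % D) (r / D / 5)) % 5 := by
    intro r
    simp only [φ]
    rw [Nat.add_mul_div_left _ _ hDpos, Nat.div_eq_of_lt (Nat.mod_lt _ hDpos), zero_add]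
  have hφm : ∀ r, φ r % D = r % D := by
    intro r
    simp only [φ]
    rw [Nat.add_mul_mod_self_left, Nat.mod_mod]
  have hφlt : ∀ r, r < 25 * D → φ r < 25 * D := by
    intro r hr
    have hm : r / D < 25 := by
      rw [Nat.div_lt_iff_lt_mul hDpos]; exact hr
    rw [← Nat.div_lt_iff_lt_mul hDpos, hφD]
    omega
  have hUφ : ∀ r, r < 25 * D → U (b + 2) (25 * D * X + r) = U (b + 2) (25 * D * X' + φ r) := by
    intro r hr
    rw [hform X r hr, hform X' (φ r) (hφlt r hr), hφm]
    have e1 : φ r / D / 5 = r / D / 5 := by rw [hφD]; omega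
    have e2 : φ r / D % 5 =
      (r / D % 5 + g X (r % D) (r / D / 5) + 4 * g X' (r % D) (r / D / 5)) % 5 := by
      rw [hφD]; omega
    rw [e1, e2]
    omega
  unfold K
  rw [hB]
  apply Finset.card_le_card_of_injOn φ
  · intro r hr
    simp only [Finset.coe_filter, Finset.mem_range, Set.mem_setOf_eq] at hr ⊢
    refine ⟨hφlt r hr.1, ?_⟩
    intro j hj
    rw [← hr.2 j hj]
    symm
    apply event_det b
    · have hdvd : 25 ^ (2 * b + 5) ∣ D := pow_dvd_pow _ (by omega)
      have e1 : (25 * D * X + r) % D = r % D := by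
        rw [show 25 * D * X + r = D * (25 * X) + r by ring, Nat.mul_add_mod]
      have e2 : (25 * D * X' + φ r) % D = r % D := by
        rw [show 25 * D * X' + φ r = D * (25 * X') + φ r by ring, Nat.mul_add_mod, hφm]
      exact Nat.ModEq.of_dvd hdvd (show (25 * D * X + r) % D = (25 * D * X' + φ r) % D by
        rw [e1, e2])
    · exact hUφ r hr.1
    · omega
  · intro r hr r' hr' he
    simp only [Finset.coe_filter, Finset.mem_range, Set.mem_setOf_eq] at hr hr'
    have h1 : r % D = r' % D := by rw [← hφm r, ← hφm r', he]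
    have h2 := hφD r
    have h3 := hφD r'
    rw [← he, h2] at h3
    have h4 : r / D / 5 = r' / D / 5 := by omega
    rw [h1, h4] at h3
    have h5 : r / D = r' / D := by omega
    rw [← Nat.div_add_mod r D, ← Nat.div_add_mod r' D, h1, h5]

theorem K_eq (N0 n b X : ℕ) (hn : n ≤ 2 * 25 ^ (b + 1)) :
    K N0 n (25 ^ (2 * b + 7)) X = K N0 n (25 ^ (2 * b + 7)) 0 :=
  le_antisymm (K_le N0 n b X 0 hn) (K_le N0 n b 0 X hn)

theorem K_bound (N0 n b : ℕ) (hn1 : 1 ≤ n) (hb : b = 0 ∨ 2 * 25 ^ b ≤ n) :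
    K N0 n (25 ^ (2 * b + 7)) 0 ≤ 25 ^ 6 := by
  unfold K
  rw [← Finset.card_range (25 ^ 6)]
  have hpos : 0 < 25 ^ (2 * b + 1) := by positivity
  apply Finset.card_le_card_of_injOn (fun r => r / 25 ^ (2 * b + 1))
  · intro r hr
    simp only [Finset.coe_filter, Finset.mem_range, Set.mem_setOf_eq, Finset.coe_range,
      Set.mem_Iio] at hr ⊢
    rw [Nat.div_lt_iff_lt_mul hpos, ← pow_add, show 6 + (2 * b + 1) = 2 * b + 7 by ring]
    exact hr.1
  · intro r hr r' hr' he
    simp only [Finset.coe_filter, Finset.mem_range, Set.mem_setOf_eq] at hr hr'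
    have h1 := (recog b _ _ n hn1 hb hr.2).1
    have h2 := (recog b _ _ n hn1 hb hr'.2).1
    simp only [mul_zero, zero_add] at h1 h2
    have he' : r / 25 ^ (2 * b + 1) = r' / 25 ^ (2 * b + 1) := he
    rw [← Nat.div_add_mod r (25 ^ (2 * b + 1)), ← Nat.div_add_mod r' (25 ^ (2 * b + 1)), he', h1, h2]

theorem count_mul (N0 n B K0 : ℕ) (hK : ∀ X, K N0 n B X = K0) (X : ℕ) :
    Nat.count (P N0 n) (B * X) = K0 * X := by
  induction X with
  | zero => simp
  | succ X ih =>
    rw [mul_add, mul_one, Nat.count_add, ih, mul_add, mul_one, Nat.count_eq_card_filter_range]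
    congr 1
    exact hK X

theorem count_window (N0 n B K0 : ℕ) (hB : 0 < B) (hK : ∀ X, K N0 n B X = K0) (M M' R : ℕ) :
    Nat.count (fun k => P N0 n (M + k)) R ≤ Nat.count (fun k => P N0 n (M' + k)) R + 3 * K0 := by
  have hc := count_mul N0 n B K0 hK
  have hlow : ∀ m, K0 * (m / B) ≤ Nat.count (P N0 n) m := by
    intro m
    rw [← hc]
    exact Nat.count_monotone _ (Nat.mul_div_le _ _)
  have hup : ∀ m, Nat.count (P N0 n) m ≤ K0 * (m / B + 1) := by
    intro m
    rw [← hc]
    apply Nat.count_monotone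
    have := Nat.lt_div_mul_add (a := m) hB
    rw [mul_add, mul_one, mul_comm B]
    exact this.le
  have e1 := Nat.count_add (P N0 n) M R
  have e2 := Nat.count_add (P N0 n) M' R
  have h1 := hup (M + R)
  have h2 := hlow M
  have h3 := hlow (M' + R)
  have h4 := hup M'
  have h5 : (M + R) / B ≤ M / B + R / B + 1 := by
    rw [← Nat.lt_succ_iff, Nat.div_lt_iff_lt_mul hB]
    have a1 := Nat.lt_div_mul_add (a := M) hB
    have a2 := Nat.lt_div_mul_add (a := R) hB
    have : (M / B + R / B + 1).succ * B = (M / B) * B + B + ((R / B) * B + B) := by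
      rw [Nat.succ_eq_add_one]; ring
    omega
  have h6 : M' / B + R / B ≤ (M' + R) / B := by
    rw [Nat.le_div_iff_mul_le hB, add_mul]
    have a1 := Nat.div_mul_le_self M' B
    have a2 := Nat.div_mul_le_self R B
    omega
  have h7 : K0 * ((M + R) / B + 1) ≤ K0 * (M / B + R / B + 2) := Nat.mul_le_mul_left _ (by omega)
  have h8 : K0 * (M' / B + R / B) ≤ K0 * ((M' + R) / B) := Nat.mul_le_mul_left _ h6
  have h9 : K0 * (M / B + R / B + 2) + K0 * (M' / B + 1) =
      K0 * (M' / B + R / B) + K0 * (M / B) + 3 * K0 := by ring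
  omega

/-! ### Counting occurrences in blocks -/

theorem block_length {β : Type} (y : ℕ → β) (i n : ℕ) : (block y i n).length = n := by
  simp [block]

theorem prefix_iff (M L N0 n k : ℕ) (hk : k ≤ L) :
    block x N0 n <+: (block x M L).drop k ↔ k + n ≤ L ∧ P N0 n (M + k) := by
  rw [List.prefix_iff_getElem]
  constructor
  · rintro ⟨h1, h2⟩
    simp only [List.length_drop, block_length] at h1
    refine ⟨by omega, ?_⟩
    intro j hj
    have := h2 j (by rw [block_length]; exact hj)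
    simp only [block, List.getElem_drop, List.getElem_map, List.getElem_range] at this
    rw [this, add_assoc]
  · rintro ⟨h1, h2⟩
    refine ⟨by simp only [List.length_drop, block_length]; omega, ?_⟩
    intro j hj
    rw [block_length] at hj
    simp only [block, List.getElem_drop, List.getElem_map, List.getElem_range]
    rw [← h2 j hj, add_assoc]

theorem occ_eq (M L N0 n : ℕ) :
    occ (block x M L) (block x N0 n) = Nat.count (fun k => P N0 n (M + k)) (L + 1 - n) := by
  unfold occ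
  rw [Nat.count_eq_card_filter_range]
  congr 1
  ext k
  simp only [Finset.mem_filter, Finset.mem_range, block_length]
  constructor
  · rintro ⟨h1, h2⟩
    rw [prefix_iff M L N0 n k (by omega)] at h2
    exact ⟨by omega, h2.2⟩
  · rintro ⟨h1, h2⟩
    refine ⟨by omega, ?_⟩
    rw [prefix_iff M L N0 n k (by omega)]
    exact ⟨by omega, h2⟩

/-- The scale of a length. -/
theorem scale (n : ℕ) : ∃ b, (b = 0 ∨ 2 * 25 ^ b ≤ n) ∧ n < 2 * 25 ^ (b + 1) := by
  refine ⟨Nat.log 25 (n / 2), ?_, ?_⟩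
  · by_cases h : n / 2 = 0
    · left; rw [h]; simp
    · right
      have := Nat.pow_log_le_self 25 h
      omega
  · have := Nat.lt_pow_succ_log_self (b := 25) (by norm_num) (n / 2)
    rw [Nat.succ_eq_add_one] at this
    omega

theorem balanced : UniformlyFactorBalanced x := by
  refine ⟨3 * 25 ^ 6, by norm_num, ?_⟩
  rintro w ⟨N0, n, rfl⟩ u v ⟨M, L, rfl⟩ ⟨M', L', rfl⟩ hlen
  rw [block_length, block_length] at hlen
  subst hlen
  rw [occ_eq, occ_eq]
  have key : ∀ M M' R : ℕ, Nat.count (fun k => P N0 n (M + k)) R ≤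
      Nat.count (fun k => P N0 n (M' + k)) R + 3 * 25 ^ 6 := by
    intro M M' R
    rcases Nat.eq_zero_or_pos n with hn | hn
    · subst hn
      have : ∀ N, P N0 0 N := fun N j hj => absurd hj (by omega)
      simp only [this]
      omega
    · obtain ⟨b, hb, hb2⟩ := scale n
      have h1 := count_window N0 n (25 ^ (2 * b + 7)) _ (by positivity)
        (fun X => K_eq N0 n b X hb2.le) M M' R
      have h2 := K_bound N0 n b hn hb
      omega
  have h1 := key M M' (L + 1 - n)
  have h2 := key M' M (L + 1 - n)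
  rw [abs_le]
  constructor <;> push_cast <;> omega

/-! ### Complexity -/

theorem complexity_ge (n b : ℕ) (hn : 1 ≤ n) (hb : b = 0 ∨ 2 * 25 ^ b ≤ n) :
    25 ^ (2 * b + 1) ≤ complexity x n := by
  classical
  unfold complexity
  have hfin : Set.Finite {w : List (Fin 25 × Fin 5) | IsFactor x w ∧ w.length = n} :=
    (List.finite_length_eq (Fin 25 × Fin 5) n).subset (fun w hw => hw.2)
  have hinj : Set.InjOn (fun N => block x N n) (Finset.range (25 ^ (2 * b + 1)) : Set ℕ) := by
    intro N hN N' hN' he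
    simp only [Finset.coe_range, Set.mem_Iio] at hN hN'
    have he' : block x N n = block x N' n := he
    have H : ∀ i < n, x (N + i) = x (N' + i) := by
      intro i hi
      have h1 : (block x N n)[i]'(by rw [block_length]; exact hi) =
        (block x N' n)[i]'(by rw [block_length]; exact hi) := by
        simp only [he']
      simpa [block] using h1
    have := (recog b N N' n hn hb H).1
    rwa [Nat.mod_eq_of_lt hN, Nat.mod_eq_of_lt hN'] at this
  have h1 := Set.ncard_image_of_injOn hinj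
  rw [Set.ncard_coe_finset, Finset.card_range] at h1
  rw [← h1]
  apply Set.ncard_le_ncard _ hfin
  rintro w ⟨N, _, rfl⟩
  exact ⟨⟨N, n, rfl⟩, block_length _ _ _⟩

/-- There is a uniformly factor-balanced infinite word over a finite alphabet whose factor complexity
is superlinear; it even satisfies `p(n) ≥ n² / 100` for all `n`. -/
theorem result : ∃ (α : Type) (_ : Fintype α) (_ : DecidableEq α) (x : ℕ → α),
    UniformlyFactorBalanced x ∧ (∀ c : ℕ, ∃ n, 1 ≤ n ∧ c * n < complexity x n) ∧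
      ∀ n, n ^ 2 ≤ 100 * complexity x n := by
  have hq : ∀ n, n ^ 2 ≤ 100 * complexity x n := by
    intro n
    rcases Nat.eq_zero_or_pos n with hn | hn
    · subst hn; simp
    · obtain ⟨b, hb, hb2⟩ := scale n
      have h1 := complexity_ge n b hn hb
      have h2 : n ^ 2 ≤ (2 * 25 ^ (b + 1)) ^ 2 := Nat.pow_le_pow_left hb2.le 2
      have h3 : (2 * 25 ^ (b + 1)) ^ 2 = 100 * 25 ^ (2 * b + 1) := by ring
      omega
  refine ⟨Fin 25 × Fin 5, inferInstance, inferInstance, x, balanced, ?_, hq⟩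
  intro c
  refine ⟨100 * c + 1, by omega, ?_⟩
  have := hq (100 * c + 1)
  nlinarith

end Pool.Agent.Results.MP_9e6215_co.QuadraticBalanced
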